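import Mathlib
import Pool.Agent.Helper980.Polar.Gch

/-!
# MP_9ed2bb_lc: over every model of GCH the relation can be forced to fail, preserving GCH

Assume GCH. There is a notion of forcing all of whose conditions force the following three
sentences: all cardinals of the ground model are cardinals, GCH holds, and there is a partition
`ω₂ × ω₃ = Δ₀ ∪ Δ₁` such that no product of a set of size `ℵ₂` and a set of size `ℵ₁` is contained
in `Δ₀` or in `Δ₁`.
-/

set_option autoImplicit false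

namespace Pool.Agent.Results.MP_9ed2bb_lc.ForcedUnderGCH

open Cardinal Ordinal Pool.Agent.Helper980 Pool.Agent.Helper980.G Pool.Agent.Helper669.Forcing
  Pool.Agent.Helper669.K

theorem not_relation {P : Type} [Preorder P] {K S I : Type}
    (h : ∀ p : P, p ∈ Prikry.NotPol P K S I) (p : P) : p ∈ fnot (Relation P K S I) := by
  intro q _ hq
  obtain ⟨r, hr, F, h1⟩ := Polar.mem_fex.1 (h q) q le_rfl
  obtain ⟨t, ht, A, h3⟩ := mem_fex.1 (hq F) r hr
  obtain ⟨u, hu, B, hA, hB, h3⟩ := mem_fex.1 h3 t le_rfl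
  have hA' : u ∈ AtLeast K A := hA
  have hB' : u ∈ AtLeast I B := hB
  obtain ⟨w, hw, h4⟩ := mem_for h3
  obtain ⟨v, hv, h5, h6⟩ := Polar.mem_fimp.1 (h1 A B) w (hw.trans (hu.trans ht))
    ⟨atLeast_conv (down_fex _ _ hA' _ hw), atLeast_conv (down_fex _ _ hB' _ hw)⟩
  rcases h4 with h4 | h4
  · exact h6 v le_rfl (fun x y => down_fimp _ _ _ (h4 x y) _ hv)
  · exact h5 v le_rfl (fun x y => down_fimp _ _ _ (h4 x y) _ hv)

/-- Some notion of forcing `P` is such that all its conditions force that all cardinals are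
preserved, that GCH holds, and that the relation `(μ⁺, μ⁺⁺) → (μ⁺, μ⁺; μ, μ)` fails. -/
def FailureForced (mu : Cardinal.{0}) : Prop :=
  ∃ (P : Type) (_ : Preorder P), Nonempty P ∧ ∀ p : P,
    p ∈ CardinalsPreserved.{0, 0} P ∧ p ∈ ForcesGCH P ∧
    p ∈ fnot (Relation P (Order.succ mu).ord.ToType (Order.succ (Order.succ mu)).ord.ToType
      mu.ord.ToType)

theorem forced (hG : ∀ ν : Cardinal.{0}, ℵ₀ ≤ ν → 2 ^ ν = Order.succ ν) (mu : Cardinal.{0})
    (h0 : ℵ₀ ≤ mu) : FailureForced mu := by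
  have hs0 : ℵ₀ ≤ Order.succ mu := h0.trans (Order.le_succ mu)
  obtain ⟨P, hP, hne, hc, h3, hcc, h5⟩ := Prikry.exists_forcing (mu := mu) h0 (hG mu h0)
    (K := (Order.succ mu).ord.ToType) (S := (Order.succ (Order.succ mu)).ord.ToType)
    (I := mu.ord.ToType) (mk_ord_toType _) (mk_ord_toType _) (mk_ord_toType _)
  have hnn : ∀ (A Y : Type) (_ : #A ≤ mu) (R : A → Y → Set P) (p : P), p ∈ IsFun R →
      ∃ q ≤ p, ∃ f : A → Y, ∀ a, q ∈ meets (R a (f a)) := noNew_all h3
  refine ⟨P, hP, hne, fun p => ⟨?_, ?_, not_relation (fun p => (h5 p).1) p⟩⟩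
  · exact cardinals_preserved hs0 (fun ν h => Order.succ_le_of_lt h) hcc hnn p
  · intro X Y hX
    rcases le_or_gt #Y #X with h | h
    · exact for_left (down_fex _) (sizeLe_of_le h p)
    · have hX0 : ℵ₀ ≤ #X := aleph0_le_mk X
      have hY : 2 ^ #X ≤ #Y := by
        rw [hG _ hX0]
        exact Order.succ_le_of_lt h
      refine for_right (down_fex _) ?_
      rcases le_or_gt #X mu with h6 | h6
      · exact powerLe_small hY (fun A p => decide_subset A (fun Y R hp => hnn X Y h6 R p hp)) p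
      · exact powerLe_big hs0 hcc (by rwa [hG _ hs0]) (Order.succ_le_of_lt h6) hY p

/-- **Main theorem.** -/
theorem result (hG : ∀ ν : Cardinal.{0}, ℵ₀ ≤ ν → 2 ^ ν = Order.succ ν) :
    (∃ (P : Type) (_ : Preorder P), Nonempty P ∧ ∀ p : P,
      p ∈ CardinalsPreserved.{0, 0} P ∧ p ∈ ForcesGCH P ∧
      p ∈ fnot (Relation P (ℵ_ 2 : Cardinal.{0}).ord.ToType (ℵ_ 3 : Cardinal.{0}).ord.ToType
        (ℵ_ 1 : Cardinal.{0}).ord.ToType)) ∧
    ∀ mu : Cardinal.{0}, ℵ₀ ≤ mu → FailureForced mu := by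
  refine ⟨?_, fun mu h0 => forced hG mu h0⟩
  have h1 : Order.succ (ℵ_ 1 : Cardinal.{0}) = ℵ_ 2 := by
    rw [succ_aleph]; norm_num
  have h2 : Order.succ (ℵ_ 2 : Cardinal.{0}) = ℵ_ 3 := by
    rw [succ_aleph]; norm_num
  have h := forced hG (ℵ_ 1) (aleph0_le_aleph 1)
  unfold FailureForced at h
  rw [h1, h2] at h
  exact h

end Pool.Agent.Results.MP_9ed2bb_lc.ForcedUnderGCH
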